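import Mathlib

/-!
The sumset `A + A` of a Golomb ruler `A` with `J` marks contains no `2 J + 1` consecutive integers.
-/

namespace Pool.Agent.P.MP_d9baa8_co

open Finset

/-- The differences of distinct elements are pairwise distinct. -/
def Gol (A : Finset ℤ) : Prop :=
  ∀ a ∈ A, ∀ b ∈ A, ∀ c ∈ A, ∀ d ∈ A, a ≠ b → c ≠ d → a - b = c - d → a = c ∧ b = d

/-- The triangular weight. -/
def wt (n d : ℤ) : ℤ := max (n - |d|) 0

theorem wt_nonneg (n d : ℤ) : 0 ≤ wt n d := le_max_right _ _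

theorem sum_wt (m n : ℕ) (h : n ≤ m + 1) :
    ∑ d ∈ Icc (-(m : ℤ)) m, wt n d = (n : ℤ) ^ 2 := by
  induction n with
  | zero =>
    rw [Finset.sum_eq_zero]
    · simp
    · intro d _
      have := abs_nonneg d
      unfold wt
      push_cast
      omega
  | succ n ih =>
    have h1 : ∀ d ∈ Icc (-(m : ℤ)) m, wt ((n + 1 : ℕ) : ℤ) d =
        wt n d + if d ∈ Icc (-(n : ℤ)) n then 1 else 0 := by
      intro d _
      unfold wt
      simp only [mem_Icc]
      push_cast
      split_ifs <;> cases abs_cases d <;> omega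
    rw [Finset.sum_congr rfl h1, Finset.sum_add_distrib, ih (by omega), Finset.sum_ite_mem,
      Finset.inter_eq_right.2 (Icc_subset_Icc (by omega) (by omega))]
    simp only [sum_const, Int.card_Icc, nsmul_eq_mul, mul_one]
    rw [Int.toNat_of_nonneg (by omega)]
    push_cast
    ring

theorem sum_le_of_support {s t : Finset ℤ} {f : ℤ → ℤ} (h0 : ∀ x, 0 ≤ f x)
    (h : ∀ x ∈ s, f x ≠ 0 → x ∈ t) : ∑ x ∈ s, f x ≤ ∑ x ∈ t, f x := by
  rw [← Finset.sum_filter_ne_zero s]
  exact Finset.sum_le_sum_of_subset_of_nonneg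
    (fun x hx => h x (mem_filter.1 hx).1 (mem_filter.1 hx).2) fun x _ _ => h0 x

theorem sum_wt_diff {A : Finset ℤ} (hA : Gol A) (n : ℕ) :
    ∑ a ∈ A, ∑ b ∈ A, wt n (a - b) ≤ A.card * n + ((n : ℤ) ^ 2 - n) := by
  have h1 : ∀ a ∈ A, ∑ b ∈ A, wt n (a - b) = n + ∑ b ∈ A.erase a, wt n (a - b) := by
    intro a ha
    rw [← Finset.add_sum_erase A _ ha]
    simp [wt]
  rw [Finset.sum_congr rfl h1, Finset.sum_add_distrib, sum_const, nsmul_eq_mul, Finset.sum_sigma']
  gcongr
  have hinj : Set.InjOn (fun x : (_ : ℤ) × ℤ => x.1 - x.2)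
      (A.sigma fun a => A.erase a : Finset ((_ : ℤ) × ℤ)) := by
    rintro ⟨a, b⟩ hx ⟨c, d⟩ hy hxy
    simp only [coe_sigma, Set.mem_sigma_iff, mem_coe, mem_erase] at hx hy
    obtain ⟨rfl, rfl⟩ := hA a hx.1 b hx.2.2 c hy.1 d hy.2.2 hx.2.1.symm hy.2.1.symm hxy
    rfl
  rw [← Finset.sum_image (f := fun d => wt n d) hinj]
  have h2 : ∑ d ∈ (Icc (-(n : ℤ)) n).erase 0, wt n d = (n : ℤ) ^ 2 - n := by
    have h3 := Finset.add_sum_erase (Icc (-(n : ℤ)) n) (fun d => wt n d)
      (show (0 : ℤ) ∈ Icc (-(n : ℤ)) n by simp)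
    rw [sum_wt n n (by omega)] at h3
    simp only [wt, abs_zero, sub_zero, Nat.cast_nonneg, sup_of_le_left] at h3
    unfold wt
    linarith
  rw [← h2]
  refine sum_le_of_support (wt_nonneg n) fun x hx hx0 => ?_
  simp only [mem_image, mem_sigma, mem_erase, mem_Icc] at hx ⊢
  obtain ⟨⟨a, b⟩, ⟨-, h4, -⟩, rfl⟩ := hx
  unfold wt at hx0
  simp only at h4 hx0 ⊢
  cases abs_cases (a - b) <;> omega

theorem sum_cross {A S : Finset ℤ} (c : ℤ) (v : ℤ → ℤ) (hv : ∀ x, 0 ≤ v x)
    (h : ∀ δ ∈ S, ∃ a ∈ A, ∃ b ∈ A, a + b = c + δ) :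
    2 * ∑ δ ∈ S, v δ ≤ ∑ a ∈ A, ∑ b ∈ A, v (a + b - c) + ∑ a ∈ A, v (2 * a - c) := by
  have h1 : ∑ δ ∈ S, v δ ≤ ∑ a ∈ A, ∑ b ∈ A, if a ≤ b then v (a + b - c) else 0 := by
    rw [← Finset.sum_product', ← Finset.sum_filter]
    refine le_trans ?_ (Finset.sum_image_le_of_nonneg (f := v)
      (g := fun x : ℤ × ℤ => x.1 + x.2 - c) fun x _ => hv x)
    refine Finset.sum_le_sum_of_subset_of_nonneg (fun δ hδ => ?_) fun x _ _ => hv x
    obtain ⟨a, ha, b, hb, hab⟩ := h δ hδ
    simp only [mem_image, mem_filter, mem_product]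
    rcases le_total a b with h2 | h2
    · exact ⟨(a, b), ⟨⟨ha, hb⟩, h2⟩, by simp only; omega⟩
    · exact ⟨(b, a), ⟨⟨hb, ha⟩, h2⟩, by simp only; omega⟩
  have h2 : ∑ a ∈ A, ∑ b ∈ A, (if a ≤ b then v (a + b - c) else 0) =
      ∑ a ∈ A, ∑ b ∈ A, if b ≤ a then v (a + b - c) else 0 := by
    rw [Finset.sum_comm]
    simp only [add_comm]
  have h3 : ∑ a ∈ A, ∑ b ∈ A, (if a ≤ b then v (a + b - c) else 0) +
      ∑ a ∈ A, ∑ b ∈ A, (if b ≤ a then v (a + b - c) else 0) =
      ∑ a ∈ A, ∑ b ∈ A, v (a + b - c) + ∑ a ∈ A, v (2 * a - c) := by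
    rw [← Finset.sum_add_distrib, ← Finset.sum_add_distrib]
    refine Finset.sum_congr rfl fun a ha => ?_
    have h4 : v (2 * a - c) = ∑ b ∈ A, if a = b then v (a + b - c) else 0 := by
      rw [Finset.sum_ite_eq, if_pos ha, two_mul]
    rw [h4, ← Finset.sum_add_distrib, ← Finset.sum_add_distrib]
    refine Finset.sum_congr rfl fun b _ => ?_
    split_ifs <;> omega
  linarith

theorem sum_ind_mul (R A B : Finset ℤ) (I I' : ℤ → Finset ℤ) (hI : ∀ a ∈ A, I a ⊆ R) :
    ∑ x ∈ R, (∑ a ∈ A, if x ∈ I a then (1 : ℤ) else 0) * (∑ b ∈ B, if x ∈ I' b then 1 else 0) =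
      ∑ a ∈ A, ∑ b ∈ B, ((I a ∩ I' b).card : ℤ) := by
  simp only [Finset.sum_mul_sum]
  rw [Finset.sum_comm]
  refine Finset.sum_congr rfl fun a ha => ?_
  rw [Finset.sum_comm]
  refine Finset.sum_congr rfl fun b _ => ?_
  have h1 : ∀ x ∈ R, (if x ∈ I a then (1 : ℤ) else 0) * (if x ∈ I' b then 1 else 0) =
      if x ∈ I a ∩ I' b then 1 else 0 := by
    intro x _
    simp only [mem_inter]
    by_cases h1 : x ∈ I a <;> by_cases h2 : x ∈ I' b <;> simp [h1, h2]
  rw [Finset.sum_congr rfl h1, Finset.sum_ite_mem,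
    Finset.inter_eq_right.2 (inter_subset_left.trans (hI a ha))]
  simp

theorem sum_ind (R A : Finset ℤ) (I : ℤ → Finset ℤ) (hI : ∀ a ∈ A, I a ⊆ R) :
    ∑ x ∈ R, (∑ a ∈ A, if x ∈ I a then (1 : ℤ) else 0) = ∑ a ∈ A, ((I a).card : ℤ) := by
  rw [Finset.sum_comm]
  refine Finset.sum_congr rfl fun a ha => ?_
  rw [Finset.sum_ite_mem, Finset.inter_eq_right.2 (hI a ha)]
  simp

theorem card_inter (a b a' b' : ℤ) :
    ((Ioc a b ∩ Ioc a' b').card : ℤ) = max (min b b' - max a a') 0 := by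
  rw [Finset.Ioc_inter_Ioc, Int.card_Ioc]
  omega

/-- The key inequality, from `h ≤ h ^ 2` for the integer `h` that compares the number of marks of
`A` in a window of length `T + L` with the number of marks of `c - A` in a concentric window of
length `T - L`. -/
theorem key {A : Finset ℤ} (hA : Gol A) (c : ℤ) (J L : ℕ) (hJ : A.card = J) (hL : L ≤ J + 1)
    (h : ∀ δ ∈ Icc (-(J : ℤ)) J, ∃ a ∈ A, ∃ b ∈ A, a + b = c + δ) :
    (J : ℤ) * L + 2 * (J + 1) ≤ 3 * L ^ 2 + ∑ a ∈ A, max (J + 1 - max |2 * a - c| L) 0 := by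
  set T : ℤ := J + 1 with hT
  let I : ℤ → Finset ℤ := fun a => Ioc (a - T) (a + L)
  let I' : ℤ → Finset ℤ := fun b => Ioc (c - b - T + L) (c - b)
  let R := A.biUnion I ∪ A.biUnion I'
  have hI : ∀ a ∈ A, I a ⊆ R := fun a ha => (subset_biUnion_of_mem I ha).trans subset_union_left
  have hI' : ∀ a ∈ A, I' a ⊆ R := fun a ha =>
    (subset_biUnion_of_mem I' ha).trans subset_union_right
  let f : ℤ → ℤ := fun x => ∑ a ∈ A, if x ∈ I a then 1 else 0
  let g : ℤ → ℤ := fun x => ∑ a ∈ A, if x ∈ I' a then 1 else 0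
  let v : ℤ → ℤ := fun δ => max (T - max |δ| L) 0
  have h0 : ∑ x ∈ R, (f x - g x) ≤ ∑ x ∈ R, (f x * f x + g x * g x - 2 * (f x * g x)) := by
    refine Finset.sum_le_sum fun x _ => ?_
    have := Int.le_self_sq (f x - g x)
    nlinarith
  rw [Finset.sum_sub_distrib, Finset.sum_sub_distrib, Finset.sum_add_distrib,
    ← Finset.mul_sum] at h0
  have hf : ∑ x ∈ R, f x = J * (T + L) := by
    rw [sum_ind R A I hI, Finset.sum_congr rfl (g := fun _ => T + L), sum_const, hJ, nsmul_eq_mul]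
    intro a _
    simp only [I, Int.card_Ioc]
    omega
  have hg : ∑ x ∈ R, g x = J * (T - L) := by
    rw [sum_ind R A I' hI', Finset.sum_congr rfl (g := fun _ => T - L), sum_const, hJ,
      nsmul_eq_mul]
    intro a _
    simp only [I', Int.card_Ioc]
    omega
  have hff : ∑ x ∈ R, f x * f x ≤ J * (T + L) + ((T + L) ^ 2 - (T + L)) := by
    have h1 := sum_wt_diff hA (J + 1 + L)
    rw [hJ] at h1
    push_cast at h1
    rw [sum_ind_mul R A A I I hI]
    refine le_trans (le_of_eq ?_) h1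
    refine Finset.sum_congr rfl fun a _ => Finset.sum_congr rfl fun b _ => ?_
    simp only [I, card_inter, wt]
    cases abs_cases (a - b) <;> omega
  have hgg : ∑ x ∈ R, g x * g x ≤ J * (T - L) + ((T - L) ^ 2 - (T - L)) := by
    have h1 := sum_wt_diff hA (J + 1 - L)
    rw [hJ] at h1
    push_cast [Nat.cast_sub hL] at h1
    rw [sum_ind_mul R A A I' I' hI']
    refine le_trans (le_of_eq ?_) h1
    refine Finset.sum_congr rfl fun a _ => Finset.sum_congr rfl fun b _ => ?_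
    simp only [I', card_inter, wt]
    cases abs_cases (a - b) <;> omega
  have hfg : ∑ x ∈ R, f x * g x = ∑ a ∈ A, ∑ b ∈ A, v (a + b - c) := by
    rw [sum_ind_mul R A A I I' hI]
    refine Finset.sum_congr rfl fun a _ => Finset.sum_congr rfl fun b _ => ?_
    simp only [I, I', v, card_inter]
    cases abs_cases (a + b - c) <;> omega
  have hv : ∑ δ ∈ Icc (-(J : ℤ)) J, v δ = T ^ 2 - L ^ 2 := by
    have h1 := sum_wt J (J + 1) le_rfl
    have h2 := sum_wt J L hL
    push_cast at h1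
    rw [← h1, ← h2, ← Finset.sum_sub_distrib]
    refine Finset.sum_congr rfl fun d _ => ?_
    simp only [v, wt]
    omega
  have hc := sum_cross c v (fun x => le_max_right _ _) h
  rw [hv, ← hfg] at hc
  rw [hf, hg] at h0
  change _ ≤ 3 * (L : ℤ) ^ 2 + ∑ a ∈ A, v (2 * a - c)
  have hJT : (J : ℤ) = T - 1 := by omega
  rw [hJT] at h0 hff hgg ⊢
  nlinarith

theorem sum_ge_of_pos (s : Finset ℤ) (hs : ∀ x ∈ s, 0 < x) :
    (s.card : ℤ) * (s.card + 1) ≤ 2 * ∑ x ∈ s, x := by
  induction s using Finset.induction_on_max with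
  | empty => simp
  | insert m s hm ih =>
    have hms : m ∉ s := fun h => lt_irrefl _ (hm m h)
    have h1 := ih fun x hx => hs x (mem_insert_of_mem hx)
    have h2 : s ⊆ Ioo 0 m := fun x hx => mem_Ioo.2 ⟨hs x (mem_insert_of_mem hx), hm x hx⟩
    have h3 := Finset.card_le_card h2
    have h4 := hs m (mem_insert_self _ _)
    rw [Int.card_Ioo] at h3
    rw [Finset.sum_insert hms, Finset.card_insert_of_notMem hms]
    push_cast
    have h5 : (s.card : ℤ) ≤ m - 1 := by omega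
    nlinarith

theorem spread {M : Finset ℤ} (hM : Gol M) (c : ℤ) (m : ℕ) (hk : M.card = m + 2) :
    3 * (m : ℤ) ^ 2 + m + 1 ≤ ∑ a ∈ M, max |2 * a - c| m := by
  let e := M.orderEmbOfFin hk
  let a : ℕ → ℤ := fun i => if h : i < m + 2 then e ⟨i, h⟩ else 0
  have hmem : ∀ i < m + 2, a i ∈ M := fun i hi => by
    simp only [a, dif_pos hi]
    exact M.orderEmbOfFin_mem hk _
  have hlt : ∀ i j, i < j → j < m + 2 → a i < a j := fun i j hij hj => by
    simp only [a, dif_pos hj, dif_pos (hij.trans hj)]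
    exact e.strictMono hij
  have hinj : ∀ i j, i < m + 2 → j < m + 2 → a i = a j → i = j := fun i j hi hj hij => by
    rcases lt_trichotomy i j with h | h | h
    · exact absurd hij (hlt i j h hj).ne
    · exact h
    · exact absurd hij (hlt j i h hi).ne'
  have hsum : ∑ x ∈ M, max |2 * x - c| m = ∑ i ∈ range (m + 2), max |2 * a i - c| (m : ℤ) := by
    have h1 : M = (range (m + 2)).image a := by
      symm
      apply Finset.eq_of_subset_of_card_le
      · intro x hx
        obtain ⟨i, hi, rfl⟩ := mem_image.1 hx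
        exact hmem i (mem_range.1 hi)
      · rw [Finset.card_image_of_injOn fun i hi j hj =>
          hinj i j (mem_range.1 hi) (mem_range.1 hj), card_range, hk]
    conv_lhs => rw [h1]
    exact Finset.sum_image fun i hi j hj => hinj i j (mem_range.1 hi) (mem_range.1 hj)
  let lo : ℕ → ℕ := fun t => if t < m + 1 then t else t - (m + 1)
  let hi : ℕ → ℕ := fun t => if t < m + 1 then t + 1 else t - (m + 1) + 2
  have hlh : ∀ t < m + 1 + m, lo t < hi t ∧ hi t < m + 2 := fun t ht => by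
    simp only [lo, hi]
    split_ifs <;> omega
  have hg : Set.InjOn (fun t => a (hi t) - a (lo t)) (range (m + 1 + m) : Finset ℕ) := by
    intro t ht u hu htu
    obtain ⟨t1, t2⟩ := hlh t (mem_range.1 ht)
    obtain ⟨u1, u2⟩ := hlh u (mem_range.1 hu)
    obtain ⟨e1, e2⟩ := hM _ (hmem _ t2) _ (hmem _ (t1.trans t2)) _ (hmem _ u2) _
      (hmem _ (u1.trans u2)) (hlt _ _ t1 t2).ne' (hlt _ _ u1 u2).ne' htu
    have e3 := hinj _ _ t2 u2 e1
    have e4 := hinj _ _ (t1.trans t2) (u1.trans u2) e2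
    simp only [lo, hi] at e3 e4
    split_ifs at e3 e4 <;> omega
  have h1 := sum_ge_of_pos ((range (m + 1 + m)).image fun t => a (hi t) - a (lo t)) (by
    intro x hx
    obtain ⟨t, ht, rfl⟩ := mem_image.1 hx
    obtain ⟨t1, t2⟩ := hlh t (mem_range.1 ht)
    exact sub_pos.2 (hlt _ _ t1 t2))
  rw [Finset.card_image_of_injOn hg, Finset.sum_image hg, card_range, Finset.sum_range_add] at h1
  have h2 : ∑ t ∈ range (m + 1), (a (hi t) - a (lo t)) = a (m + 1) - a 0 := by
    rw [← Finset.sum_range_sub a]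
    refine Finset.sum_congr rfl fun t ht => ?_
    simp only [lo, hi, if_pos (mem_range.1 ht)]
  have h3 : ∑ t ∈ range m, (a (hi (m + 1 + t)) - a (lo (m + 1 + t))) =
      (a (m + 1) - a 1) + (a m - a 0) := by
    rw [← Finset.sum_range_sub a, ← Finset.sum_range_sub fun t => a (t + 1),
      ← Finset.sum_add_distrib]
    refine Finset.sum_congr rfl fun t _ => ?_
    simp only [lo, hi, if_neg (show ¬ m + 1 + t < m + 1 by omega), Nat.add_sub_cancel_left]
    ring
  rw [h2, h3] at h1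
  push_cast at h1
  rw [hsum]
  have hF : ∀ i, |2 * a i - c| ≤ max |2 * a i - c| (m : ℤ) := fun i => le_max_left _ _
  have hp : ∀ i, 2 * a i - c ≤ max |2 * a i - c| (m : ℤ) := fun i => (le_abs_self _).trans (hF i)
  have hn : ∀ i, -(2 * a i - c) ≤ max |2 * a i - c| (m : ℤ) := fun i =>
    (neg_le_abs _).trans (hF i)
  rcases Nat.lt_or_ge m 2 with hm | hm
  · clear_value a
    clear h2 h3 hg hlh hsum lo hi e
    obtain rfl | rfl : m = 0 ∨ m = 1 := by omega
    · have h4 := hp 1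
      have h5 := hn 0
      have h6 := hlt 0 1 (by omega) (by omega)
      simp only [sum_range_succ, sum_range_zero]
      push_cast at h1 h4 h5 ⊢
      linarith
    · have h4 := hp 2
      have h5 := hn 0
      have h6 : (1 : ℤ) ≤ max |2 * a 1 - c| ((1 : ℕ) : ℤ) := le_max_right _ _
      simp only [sum_range_succ, sum_range_zero]
      push_cast at h1 h4 h5 h6 ⊢
      linarith
  · obtain ⟨n, rfl⟩ := Nat.exists_eq_add_of_le' hm
    rw [Finset.sum_range_succ, Finset.sum_range_succ, Finset.sum_range_succ',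
      Finset.sum_range_succ']
    have h4 : (n : ℤ) * ((n + 2 : ℕ) : ℤ) ≤
        ∑ i ∈ range n, max |2 * a (i + 1 + 1) - c| ((n + 2 : ℕ) : ℤ) := by
      have := Finset.card_nsmul_le_sum (range n)
        (fun i => max |2 * a (i + 1 + 1) - c| ((n + 2 : ℕ) : ℤ)) _ fun i _ => le_max_right _ _
      rwa [card_range, nsmul_eq_mul] at this
    have h5 := hp (n + 2 + 1)
    have h6 := hp (n + 2)
    have h7 := hn 0
    have h8 := hn (0 + 1)
    have h9 := hlt 1 (n + 2) (by omega) (by omega)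
    simp only [zero_add] at h8 ⊢
    push_cast at h1 h4 h5 h6 h7 h8 ⊢
    nlinarith

/-- The sumset of a Golomb ruler with `J` marks misses a point of every block of `2 J + 1`
consecutive integers. -/
theorem exists_gap {A : Finset ℤ} (hA : Gol A) (c : ℤ) :
    ∃ δ : ℤ, |δ| ≤ A.card ∧ ∀ a ∈ A, ∀ b ∈ A, a + b ≠ c + δ := by
  by_contra hcon
  push Not at hcon
  set J := A.card with hJ
  have h : ∀ δ ∈ Icc (-(J : ℤ)) J, ∃ a ∈ A, ∃ b ∈ A, a + b = c + δ := fun δ hδ =>
    hcon δ (abs_le.2 (mem_Icc.1 hδ))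
  let M := A.filter fun a => |2 * a - c| ≤ J
  have hM : Gol M := fun a ha b hb c hc d hd =>
    hA a (mem_filter.1 ha).1 b (mem_filter.1 hb).1 c (mem_filter.1 hc).1 d (mem_filter.1 hd).1
  have hMJ : M.card ≤ J := card_filter_le _ _
  have hs : ∀ L : ℕ, L ≤ J + 1 → ∑ a ∈ A, max (J + 1 - max |2 * a - c| L) (0 : ℤ) =
      M.card * (J + 1) - ∑ a ∈ M, max |2 * a - c| (L : ℤ) := by
    intro L hL
    rw [← nsmul_eq_mul, ← sum_const, ← Finset.sum_sub_distrib, Finset.sum_filter]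
    refine Finset.sum_congr rfl fun a _ => ?_
    split_ifs <;> omega
  rcases Nat.lt_or_ge M.card 2 with hk | hk
  · have h1 := key hA c J 0 rfl (by omega) h
    rw [hs 0 (by omega)] at h1
    have h2 : 0 ≤ ∑ a ∈ M, max |2 * a - c| ((0 : ℕ) : ℤ) :=
      Finset.sum_nonneg fun a _ => le_max_right _ _
    have h3 : (M.card : ℤ) ≤ 1 := by omega
    have h4 : (0 : ℤ) ≤ J := by positivity
    push_cast at h1 h2
    nlinarith
  · obtain ⟨m, hm⟩ := Nat.exists_eq_add_of_le' hk
    have h1 := key hA c J m rfl (by omega) h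
    rw [hs m (by omega), hm] at h1
    have h2 := spread hM c m hm
    push_cast at h1
    nlinarith

end Pool.Agent.P.MP_d9baa8_co
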